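import Pool.Agent.W_MP_f5b23d_al.Main

set_option autoImplicit false

namespace Pool.Agent.Results.MP_f5b23d_al.FrattiniGenusCounterexample

/-- `G` is residually torsion-free nilpotent: for every `g ≠ 1` in `G` there is a surjective
homomorphism from `G` onto a torsion-free nilpotent group which does not send `g` to `1`. -/
def ResiduallyTorsionFreeNilpotent (G : Type) [Group G] : Prop :=
  ∀ g : G, g ≠ 1 → ∃ (N : Type) (_ : Group N) (f : G →* N),
    Function.Surjective f ∧ Group.IsNilpotent N ∧
      (∀ x : N, ∀ n : ℕ, 0 < n → x ^ n = 1 → x = 1) ∧ f g ≠ 1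

/-- `G` and `H` have the same lower central sequence: the quotients of `G` and `H` by
corresponding terms of the lower central series are isomorphic. (In Mathlib's indexing the `n`-th
term, `n ≥ 0`, is the one usually written `γ_{n+1}`.) -/
def SameLowerCentralSequence (G H : Type) [Group G] [Group H] : Prop :=
  ∀ n : ℕ, Nonempty ((G ⧸ (⊤ : Subgroup G).lowerCentralSeries n) ≃*
    (H ⧸ (⊤ : Subgroup H).lowerCentralSeries n))

/-- There are finitely generated residually torsion-free nilpotent groups `G` and `H` of the same
genus such that the Frattini subgroup of `G` is trivial and that of `H` is not. -/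
theorem result : ∃ (G H : Type) (_ : Group G) (_ : Group H),
    Group.FG G ∧ Group.FG H ∧
    ResiduallyTorsionFreeNilpotent G ∧ ResiduallyTorsionFreeNilpotent H ∧
    SameLowerCentralSequence G H ∧
    frattini G = ⊥ ∧ frattini H ≠ ⊥ := by
  obtain ⟨G, H, hG, hH, h1, h2, h3, h4, h5, h6, h7⟩ := Pool.Agent.W_MP_f5b23d_al.main
  exact ⟨G, H, hG, hH, h1, h2, fun g hg => h3.res g hg, fun g hg => h4.res g hg, h5, h6, h7⟩

end Pool.Agent.Results.MP_f5b23d_al.FrattiniGenusCounterexample
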